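import Mathlib

/-!
Truncated elementary affine maps of sequences, and a bound for the number of their joint actions.
-/

noncomputable section

namespace Pool.Agent.MP_e6aac2_al.H99

open PowerSeries

abbrev F3 := ZMod 3

abbrev Sq := ℕ → Bool → F3

def cr (b : Bool) (α : F3 × F3) (x : Sq) : ℕ → F3
  | 0 => α.2
  | t + 1 => α.1 * x t (!b)

def U (b : Bool) (α : F3 × F3) (τ : ℕ) (x : Sq) : Sq :=
  fun t b' => x t b' + if b' = b ∧ t < τ then cr b α x t else 0

variable {Gn : Type}

def act (side : Gn → Bool) (τ : Gn → ℕ) : List (Gn × F3 × F3) → Sq → Sq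
  | [], x => x
  | q :: W, x => U (side q.1) q.2 (τ q.1) (act side τ W x)

abbrev St4 := Bool × Bool → F3⟦X⟧

def stp (b : Bool) (c l m : F3) (z : St4) : St4 := fun p =>
  z p + if p.2 = b then (if p.1 then C m * X * z (false, !b) else C c + C l * X * z (false, !b))
    else 0

open Classical in
def univ (side : Gn → Bool) (κ : Fin 3 → Gn → Prop) : List (Gn × F3 × F3) → St4 → St4
  | [], z => z
  | q :: W, z => stp (side q.1) (if κ 0 q.1 then q.2.2 else 0) (if κ 1 q.1 then q.2.1 else 0)
      (if κ 2 q.1 then q.2.1 else 0) (univ side κ W z)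

def emb (x : Bool → F3⟦X⟧) : St4 := fun p => if p.1 then 0 else x p.2

lemma univ_affine (side : Gn → Bool) (κ : Fin 3 → Gn → Prop) (W : List (Gn × F3 × F3))
    (x : Bool → F3⟦X⟧) : ∀ p, univ side κ W (emb x) p = univ side κ W (emb 0) p +
      x false * (univ side κ W (emb (Pi.single false 1)) p - univ side κ W (emb 0) p) +
      x true * (univ side κ W (emb (Pi.single true 1)) p - univ side κ W (emb 0) p) := by
  induction W with
  | nil => rintro ⟨a, b⟩; cases a <;> cases b <;> simp [univ, emb]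
  | cons q W ih =>
    intro p
    simp only [univ, stp]
    rw [ih p, ih (false, !side q.1)]
    split_ifs <;> ring

def fp (side : Gn → Bool) (κ : Fin 3 → Gn → Prop) (M : ℕ) (W : List (Gn × F3 × F3)) :
    Option Bool × (Bool × Bool) × Fin (M + 1) → F3 :=
  fun q => coeff q.2.2 (univ side κ W (emb (q.1.elim 0 fun b => Pi.single b 1)) q.2.1)

lemma coeff_eq_of_fp {side : Gn → Bool} {κ : Fin 3 → Gn → Prop} {M : ℕ}
    {W W' : List (Gn × F3 × F3)} (h : fp side κ M W = fp side κ M W') (x : Bool → F3⟦X⟧)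
    (p : Bool × Bool) {t : ℕ} (ht : t ≤ M) :
    coeff t (univ side κ W (emb x) p) = coeff t (univ side κ W' (emb x) p) := by
  have h0 : ∀ j ≤ M, coeff j (univ side κ W (emb 0) p) = coeff j (univ side κ W' (emb 0) p) :=
    fun j hj => congrFun h (none, p, ⟨j, by omega⟩)
  have h1 : ∀ b, ∀ j ≤ M, coeff j (univ side κ W (emb (Pi.single b 1)) p) =
      coeff j (univ side κ W' (emb (Pi.single b 1)) p) :=
    fun b j hj => congrFun h (some b, p, ⟨j, by omega⟩)
  rw [univ_affine side κ W, univ_affine side κ W']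
  simp only [map_add, coeff_mul, map_sub, h0 t ht]
  congr 1
  · congr 1
    refine Finset.sum_congr rfl fun q hq => ?_
    have := Finset.HasAntidiagonal.mem_antidiagonal.1 hq
    rw [h0 _ (by omega), h1 _ _ (by omega)]
  · refine Finset.sum_congr rfl fun q hq => ?_
    have := Finset.HasAntidiagonal.mem_antidiagonal.1 hq
    rw [h0 _ (by omega), h1 _ _ (by omega)]

open Classical in
def lsum (W : List (Gn × F3 × F3)) (g : Gn) : F3 :=
  (W.map fun q => if q.1 = g then q.2.1 else 0).sum

lemma act_spec [Fintype Gn] (side : Gn → Bool) (τ : Gn → ℕ) (κ : Fin 3 → Gn → Prop) {μ : ℕ}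
    (hμ : 1 ≤ μ) {β : Bool} (hs : ∀ g, τ g ≤ 1 ∨ μ ≤ τ g) (hβ : ∀ g, side g ≠ β → τ g ≤ μ)
    (h0 : ∀ g, κ 0 g ↔ 1 ≤ τ g) (h1 : ∀ g, κ 1 g ↔ 2 ≤ τ g) (h2 : ∀ g, κ 2 g ↔ μ + 1 ≤ τ g)
    (x : Sq) (W : List (Gn × F3 × F3)) :
    (∀ t < μ, ∀ b, act side τ W x t b =
      coeff t (univ side κ W (emb fun b => mk fun t => x t b) (false, b))) ∧
    (∀ b, act side τ W x μ b =
      x μ b + coeff μ (univ side κ W (emb fun b => mk fun t => x t b) (true, b))) ∧
    (∀ t, μ ≤ t → act side τ W x t (!β) = x t (!β)) ∧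
    (∀ t, μ ≤ t → act side τ W x (t + 1) β = x (t + 1) β +
      (∑ g, if side g = β ∧ t + 1 < τ g then lsum W g else 0) * x t (!β)) := by
  classical
  induction W with
  | nil => simp [act, univ, emb, lsum]
  | cons q W ih =>
    obtain ⟨ia, ib, ic, id⟩ := ih
    obtain ⟨g, l, c⟩ := q
    refine ⟨fun t ht b => ?_, fun b => ?_, fun t ht => ?_, fun t ht => ?_⟩
    · simp only [act, univ, U, stp, map_add, ia t ht b, Bool.false_eq_true, if_false]
      congr 1
      by_cases hb : b = side g
      · subst hb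
        simp only [true_and, if_true, map_add]
        cases t with
        | zero =>
          simp only [cr, h0, coeff_zero_C, mul_assoc, coeff_C_mul, coeff_zero_X_mul, mul_zero,
            add_zero, Nat.lt_iff_add_one_le, zero_add]
        | succ t =>
          have e : t + 1 < τ g ↔ 2 ≤ τ g := by have := hs g; omega
          simp only [cr, h1, e, coeff_succ_C, mul_assoc, coeff_C_mul, coeff_succ_X_mul, zero_add,
            ia t (by omega)]
          split_ifs <;> simp
      · simp [hb]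
    · obtain ⟨t, rfl⟩ : ∃ t, μ = t + 1 := ⟨μ - 1, by omega⟩
      simp only [act, univ, U, stp, map_add, ib b, if_true, add_assoc]
      congr 2
      by_cases hb : b = side g
      · subst hb
        simp only [true_and, if_true, cr, h2, mul_assoc, coeff_C_mul, coeff_succ_X_mul,
          ia t (by omega), Nat.lt_iff_add_one_le]
        split_ifs <;> simp
      · simp [hb]
    · simp only [act, U, ic t ht]
      rw [if_neg, add_zero]
      rintro ⟨e1, e2⟩
      have := hβ g (by rw [← e1]; simp)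
      omega
    · simp only [act, U, id t ht, cr]
      have e : ∀ g', lsum ((g, l, c) :: W) g' = (if g = g' then l else 0) + lsum W g' :=
        fun g' => by simp [lsum]
      have e2 : (∑ g', if side g' = β ∧ t + 1 < τ g' then lsum ((g, l, c) :: W) g' else 0) =
          (if side g = β ∧ t + 1 < τ g then l else 0) +
            ∑ g', if side g' = β ∧ t + 1 < τ g' then lsum W g' else 0 := by
        rw [← Finset.sum_ite_eq_of_mem Finset.univ g
          (fun g' => if side g' = β ∧ t + 1 < τ g' then l else 0) (Finset.mem_univ _),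
          ← Finset.sum_add_distrib]
        refine Finset.sum_congr rfl fun g' _ => ?_
        rw [e]
        split_ifs <;> simp
      rw [e2]
      by_cases hb : side g = β
      · simp only [hb, true_and, ic t ht]
        split_ifs <;> ring
      · simp [hb, Ne.symm hb]

theorem card_le_of_types [Fintype Gn] {H P T : Type} [Fintype P] (side : Gn → Bool)
    (τ : T → Gn → ℕ) (ev : List (Gn × F3 × F3) → H) (hev : Function.Surjective ev)
    (hact : ∀ W W', (∀ ω, act side (τ ω) W = act side (τ ω) W') → ev W = ev W')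
    (κ : P → Fin 3 → Gn → Prop) (Mx : P → ℕ)
    (hc : ∀ ω, ∃ p μ β, 1 ≤ μ ∧ μ ≤ Mx p ∧ (∀ g, τ ω g ≤ 1 ∨ μ ≤ τ ω g) ∧
      (∀ g, side g ≠ β → τ ω g ≤ μ) ∧ (∀ g, κ p 0 g ↔ 1 ≤ τ ω g) ∧ (∀ g, κ p 1 g ↔ 2 ≤ τ ω g) ∧
      ∀ g, κ p 2 g ↔ μ + 1 ≤ τ ω g) :
    Finite H ∧ Nat.card H ≤ 3 ^ (Fintype.card Gn + 12 * ∑ p, (Mx p + 1)) := by
  classical
  let FP : List (Gn × F3 × F3) →
      (Gn → F3) × ∀ p, Option Bool × (Bool × Bool) × Fin (Mx p + 1) → F3 :=
    fun W => (lsum W, fun p => fp side (κ p) (Mx p) W)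
  have key : ∀ W W', FP W = FP W' → ev W = ev W' := by
    intro W W' h
    refine hact W W' fun ω => ?_
    obtain ⟨p, μ, β, k1, k2, k3, k4, k5, k6, k7⟩ := hc ω
    have e1 : lsum W = lsum W' := congrArg Prod.fst h
    have e2 := congrFun (congrArg Prod.snd h) p
    funext x t b
    obtain ⟨a1, a2, a3, a4⟩ := act_spec side (τ ω) (κ p) k1 k3 k4 k5 k6 k7 x W
    obtain ⟨b1, b2, b3, b4⟩ := act_spec side (τ ω) (κ p) k1 k3 k4 k5 k6 k7 x W'
    rcases lt_trichotomy t μ with ht | rfl | ht
    · rw [a1 t ht, b1 t ht, coeff_eq_of_fp e2 _ _ (by omega)]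
    · rw [a2, b2, coeff_eq_of_fp e2 _ _ k2]
    · by_cases hb : b = β
      · obtain ⟨t, rfl⟩ : ∃ s, t = s + 1 := ⟨t - 1, by omega⟩
        rw [hb, a4 t (by omega), b4 t (by omega), e1]
      · rw [Bool.eq_not_iff.2 hb, a3 t ht.le, b3 t ht.le]
  have hinj : Function.Injective fun h : H => FP (Function.surjInv hev h) := by
    intro h h' e
    rw [← Function.surjInv_eq hev h, key _ _ e, Function.surjInv_eq hev h']
  refine ⟨Finite.of_injective _ hinj, (Nat.card_le_card_of_injective _ hinj).trans_eq ?_⟩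
  simp only [Nat.card_eq_fintype_card, Fintype.card_prod, Fintype.card_pi, ZMod.card,
    Finset.prod_const, Finset.card_univ, Fintype.card_option, Fintype.card_bool, Fintype.card_fin]
  rw [Finset.prod_pow_eq_pow_sum, ← pow_add, Finset.mul_sum]
  congr 2
  exact Finset.sum_congr rfl fun p _ => by ring

end Pool.Agent.MP_e6aac2_al.H99
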