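import Pool.Agent.MP_e6aac2_al.H99.Finger

/-!
Counter machines acting on words: the counters are the exponents of primes in one integer.
Translations and lamps; a lamp survives on a letter when the machine can make the named step.
-/

noncomputable section

namespace Pool.Agent.MP_e6aac2_al.H99

inductive Ins
  | inc (k : ℕ)
  | dec (k : ℕ)
  | zero (k : ℕ)
  | nop

def Ins.reg : Ins → ℕ
  | inc k => k
  | dec k => k
  | zero k => k
  | nop => 0

def pr (k : ℕ) : ℕ := Nat.nth Nat.Prime k

lemma pr_prime (k : ℕ) : (pr k).Prime := Nat.prime_nth_prime k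

lemma pr_inj : Function.Injective pr := Nat.nth_injective Nat.infinite_setOfPred_prime

lemma pr_primeZ (k : ℕ) : Prime (pr k : ℤ) := Nat.prime_iff_prime_int.1 (pr_prime k)

structure CM (Md St : Type) where
  B : ℕ
  ins : Md → Ins
  act : Md → Bool
  src : Md → St
  tgt : Md → St
  s0 : St
  reg_lt : ∀ md, (ins md).reg < B

namespace CM

variable {Md St : Type} (M : CM Md St)

def N : ℕ := ∏ k ∈ Finset.range M.B, pr k

lemma N_pos : 0 < M.N := Finset.prod_pos fun k _ => (pr_prime k).pos

lemma N_ne : (M.N : ℤ) ≠ 0 := by exact_mod_cast M.N_pos.ne'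

lemma pr_dvd {k : ℕ} (hk : k < M.B) : (pr k : ℤ) ∣ M.N :=
  Int.natCast_dvd_natCast.2 (Finset.dvd_prod_of_mem _ (Finset.mem_range.2 hk))

lemma N_dvd {d : ℤ} (h : ∀ k < M.B, (pr k : ℤ) ∣ d) : (M.N : ℤ) ∣ d := by
  rw [Int.natCast_dvd, N]
  refine Finset.prod_dvd_of_isRelPrime (fun i _ j _ hij => ?_)
    fun k hk => Int.natCast_dvd.1 (h k (Finset.mem_range.1 hk))
  exact Nat.coprime_iff_isRelPrime.1 ((Nat.coprime_primes (pr_prime i) (pr_prime j)).2
    fun e => hij (pr_inj e))

def mul (md : Md) : ℕ :=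
  match M.ins md with
  | .inc k => M.N * pr k
  | .dec k => M.N / pr k
  | _ => M.N

def ok (md : Md) (y : ℤ) : Prop :=
  match M.ins md with
  | .dec k => (pr k : ℤ) ∣ y
  | .zero k => ¬ (pr k : ℤ) ∣ y
  | _ => True

lemma mul_pos (md : Md) : 0 < M.mul md := by
  have h := M.reg_lt md
  have := M.N_pos
  unfold mul
  cases e : M.ins md <;> simp only [e, Ins.reg] at h ⊢ <;> try assumption
  · exact Nat.mul_pos this (pr_prime _).pos
  · exact Nat.div_pos (Nat.le_of_dvd this (Int.natCast_dvd_natCast.1 (M.pr_dvd h))) (pr_prime _).pos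

lemma ok_congr {md : Md} {y y' : ℤ} (h : ∀ k < M.B, (pr k : ℤ) ∣ y ↔ (pr k : ℤ) ∣ y')
    (hy : M.ok md y) : M.ok md y' := by
  have h1 := M.reg_lt md
  unfold ok at *
  cases e : M.ins md <;> simp only [e, Ins.reg] at h1 hy ⊢
  · exact (h _ h1).1 hy
  · exact fun h2 => hy ((h _ h1).2 h2)

lemma ok_dvd {md : Md} {y : ℤ} (hy : M.ok md y) : (M.N : ℤ) ∣ y * M.mul md := by
  have h1 := M.reg_lt md
  unfold ok at hy
  unfold mul
  cases e : M.ins md <;> simp only [e, Ins.reg] at h1 hy ⊢
  · push_cast; exact Dvd.intro (y * pr _) (by ring)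
  · obtain ⟨z, rfl⟩ := hy
    refine Dvd.intro z ?_
    push_cast
    rw [mul_comm _ z, mul_comm _ z, mul_assoc, Int.mul_ediv_cancel' (M.pr_dvd h1)]
  · exact dvd_mul_left _ _
  · exact dvd_mul_left _ _

abbrev Ctl := Md × Fin M.N

abbrev Let := M.Ctl × (Bool → F3)

def al (σ : Option St) (md : Md) (y : ℤ) : Prop :=
  match σ with
  | none => (M.N : ℤ) ∣ y
  | some s => M.src md = s ∧ M.ok md y

def np (md : Md) (y : ℤ) : ℤ := y * M.mul md / M.N

def ns (σ : Option St) (md : Md) : Option St := σ.map fun _ => M.tgt md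

lemma ns_isNone (σ : Option St) (md : Md) : (M.ns σ md).isNone = σ.isNone := by cases σ <;> rfl

lemma al_np {σ : Option St} {md : Md} {y : ℤ} (h : M.al σ md y) :
    y * M.mul md = M.N * M.np md y := by
  refine (Int.mul_ediv_cancel' ?_).symm
  cases σ with
  | none => exact dvd_mul_of_dvd_left h _
  | some s => exact M.ok_dvd h.2

lemma al_of_dvd {σ : Option St} {md : Md} {y y' : ℤ} (hd : (M.N : ℤ) ∣ y' - y) (h : M.al σ md y) :
    M.al σ md y' := by
  have e : y' = y + (y' - y) := by ring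
  cases σ with
  | none => rw [e]; exact dvd_add h hd
  | some s =>
    refine ⟨h.1, M.ok_congr (fun k hk => ?_) h.2⟩
    rw [e]
    exact (dvd_add_left ((M.pr_dvd hk).trans hd)).symm

lemma np_add (md : Md) (y q : ℤ) : M.np md (y + M.N * q) = M.np md y + M.mul md * q := by
  unfold np
  rw [← Int.add_mul_ediv_left _ _ M.N_ne]
  congr 1; ring

def o (md : Md) (b : Bool) (α : F3 × F3) (v : Bool → F3) : Bool → F3 :=
  if M.act md then fun b' => v b' + if b' = b then α.2 else 0 else v

def nx (md : Md) (b : Bool) (α : F3 × F3) (v : Bool → F3) : F3 × F3 :=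
  if M.act md then (α.1, α.1 * v (!b)) else α

open Classical in
def lampF : Option St → F3 × F3 → ℤ → List M.Let → List M.Let
  | _, _, _, [] => []
  | σ, α, j, a :: w =>
    if M.al σ a.1.1 (a.1.2 + j) then (a.1, M.o a.1.1 σ.isNone α a.2) ::
      lampF (M.ns σ a.1.1) (M.nx a.1.1 σ.isNone α a.2) (M.np a.1.1 (a.1.2 + j)) w
    else a :: w

open Classical in
/-- number of active letters read before the lamp dies -/
def tau : List M.Ctl → Option St → ℤ → ℕ
  | [], _, _ => 0
  | c :: ω, σ, j =>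
    if M.al σ c.1 (c.2 + j) then
      tau ω (M.ns σ c.1) (M.np c.1 (c.2 + j)) + if M.act c.1 then 1 else 0
    else 0

def scons (v : Bool → F3) (x : Sq) : Sq
  | 0 => v
  | t + 1 => x t

def dat : List M.Let → Sq
  | [] => 0
  | a :: w => if M.act a.1.1 then scons a.2 (dat w) else dat w

def sig (w : List M.Let) : List M.Let := w.map fun a => (a.1, if M.act a.1.1 then 0 else a.2)

lemma ctl_sig (w : List M.Let) : (M.sig w).map Prod.fst = w.map Prod.fst := by simp [sig]

lemma ext_sig_dat : ∀ w w' : List M.Let, M.sig w = M.sig w' → M.dat w = M.dat w' → w = w'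
  | [], [], _, _ => rfl
  | [], _ :: _, h, _ => by simp [sig] at h
  | _ :: _, [], h, _ => by simp [sig] at h
  | (c, v) :: w, (c', v') :: w', h, h' => by
    simp only [sig, List.map_cons, List.cons.injEq, Prod.mk.injEq] at h
    obtain ⟨⟨rfl, h1⟩, h2⟩ := h
    simp only [dat] at h'
    split_ifs at h1 h'
    · rw [ext_sig_dat w w' h2 (funext fun t => congrFun h' (t + 1)),
        show v = v' from congrFun h' 0]
    · rw [ext_sig_dat w w' h2 h', h1]

lemma sig_lampF (w : List M.Let) : ∀ σ α j, M.sig (M.lampF σ α j w) = M.sig w := by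
  induction w with
  | nil => intros; rfl
  | cons a w ih =>
    intro σ α j
    simp only [lampF]
    split_ifs
    · have := ih (M.ns σ a.1.1) (M.nx a.1.1 σ.isNone α a.2) (M.np a.1.1 (a.1.2 + j))
      simp only [sig, List.map_cons] at this ⊢
      rw [this]
      congr 2
      unfold o
      cases M.act a.1.1 <;> simp
    · rfl

lemma ctl_lampF (w : List M.Let) (σ α j) : (M.lampF σ α j w).map Prod.fst = w.map Prod.fst := by
  rw [← ctl_sig, sig_lampF, ctl_sig]

lemma U_zero (b : Bool) (α : F3 × F3) (x : Sq) : U b α 0 x = x := by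
  funext t b'; simp [U]

lemma dat_lampF (w : List M.Let) : ∀ σ α j, M.dat (M.lampF σ α j w) =
    U σ.isNone α (M.tau (w.map Prod.fst) σ j) (M.dat w) := by
  induction w with
  | nil => intro σ α j; exact (U_zero _ _ _).symm
  | cons a w ih =>
    intro σ α j
    simp only [lampF, List.map_cons, tau]
    by_cases h : M.al σ a.1.1 (a.1.2 + j)
    · simp only [h, if_true, dat, ih, ns_isNone, o, nx]
      cases M.act a.1.1
      · simp
      · simp only [if_true]
        funext t b'
        cases t with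
        | zero => simp [U, scons, cr]
        | succ t => cases t <;> simp [U, scons, cr]
    · simp only [h, if_false, U_zero]

lemma U_add (b : Bool) (α β : F3 × F3) (τ : ℕ) (x : Sq) :
    U b α τ (U b β τ x) = U b (α + β) τ x := by
  funext t b'
  cases t <;> simp only [U, cr] <;> split_ifs <;> simp_all <;> ring

lemma U_zero' (b : Bool) (τ : ℕ) (x : Sq) : U b 0 τ x = x := by
  funext t b'
  cases t <;> simp [U, cr]

lemma lampF_add (σ : Option St) (α β : F3 × F3) (j : ℤ) (w : List M.Let) :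
    M.lampF σ α j (M.lampF σ β j w) = M.lampF σ (α + β) j w :=
  M.ext_sig_dat _ _ (by simp only [sig_lampF]) (by simp only [dat_lampF, ctl_lampF, U_add])

lemma lampF_zero (σ : Option St) (j : ℤ) (w : List M.Let) : M.lampF σ 0 j w = w :=
  M.ext_sig_dat _ _ (by simp only [sig_lampF]) (by simp only [dat_lampF, U_zero'])

def lamp (σ : Option St) (α : F3 × F3) (j : ℤ) : Equiv.Perm (List M.Let) where
  toFun := M.lampF σ α j
  invFun := M.lampF σ (-α) j
  left_inv w := by rw [lampF_add, neg_add_cancel, lampF_zero]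
  right_inv w := by rw [lampF_add, add_neg_cancel, lampF_zero]

lemma lamp_apply (σ : Option St) (α : F3 × F3) (j : ℤ) (w : List M.Let) :
    M.lamp σ α j w = M.lampF σ α j w := rfl

lemma lamp_inv (σ : Option St) (α : F3 × F3) (j : ℤ) : (M.lamp σ α j)⁻¹ = M.lamp σ (-α) j :=
  Equiv.ext fun _ => rfl

lemma lamp_mul (σ : Option St) (α β : F3 × F3) (j : ℤ) :
    M.lamp σ α j * M.lamp σ β j = M.lamp σ (α + β) j :=
  Equiv.ext fun w => M.lampF_add σ α β j w

lemma lamp_cube (σ : Option St) (α : F3 × F3) (j : ℤ) : M.lamp σ α j ^ 3 = 1 := by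
  have : α + α + α = 0 := by revert α; decide
  rw [pow_succ, pow_two, lamp_mul, lamp_mul, this]
  exact Equiv.ext (M.lampF_zero σ j)

def addc (x : Fin M.N) (n : ℤ) : Fin M.N :=
  ⟨((x + n) % M.N).toNat, by
    have h1 := Int.emod_lt_of_pos (x + n) (Int.natCast_pos.2 M.N_pos)
    have h2 := Int.emod_nonneg (x + n) M.N_ne
    omega⟩

lemma addc_val (x : Fin M.N) (n : ℤ) : (M.addc x n : ℤ) + M.N * ((x + n) / M.N) = x + n := by
  have h2 := Int.emod_nonneg (x + n) M.N_ne
  simp only [addc, Int.toNat_of_nonneg h2]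
  exact Int.emod_add_mul_ediv _ _

lemma addc_addc (x : Fin M.N) (m n : ℤ) : M.addc (M.addc x m) n = M.addc x (n + m) := by
  apply Fin.ext
  have h := M.addc_val x m
  have : (x + (n + m) : ℤ) = M.addc x m + n + M.N * ((x + m) / M.N) := by linarith
  simp only [addc] at this ⊢
  rw [this, Int.add_mul_emod_self_left]

lemma car_add (x : Fin M.N) (m n : ℤ) :
    (M.addc x m + n : ℤ) / M.N + (x + m) / M.N = (x + (n + m)) / M.N := by
  have h := M.addc_val x m
  rw [← Int.add_mul_ediv_left _ _ M.N_ne]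
  congr 1; linarith

def trF : ℤ → List M.Let → List M.Let
  | _, [] => []
  | n, a :: w => ((a.1.1, M.addc a.1.2 n), a.2) :: trF (M.mul a.1.1 * ((a.1.2 + n) / M.N)) w

lemma trF_add (w : List M.Let) : ∀ n m : ℤ, M.trF n (M.trF m w) = M.trF (n + m) w := by
  induction w with
  | nil => intros; rfl
  | cons a w ih =>
    intro n m
    simp only [trF, ih, addc_addc, ← mul_add, car_add]

lemma trF_zero (w : List M.Let) : M.trF 0 w = w := by
  induction w with
  | nil => rfl
  | cons a w ih =>
    have h1 : ((a.1.2 : ℤ) + 0) / M.N = 0 :=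
      Int.ediv_eq_zero_of_lt (by positivity) (by have := a.1.2.2; omega)
    have h2 : M.addc a.1.2 0 = a.1.2 := by
      have := M.addc_val a.1.2 0
      rw [h1] at this
      exact Fin.ext (by omega)
    simp only [trF, h1, h2, mul_zero, ih]

def tr (n : ℤ) : Equiv.Perm (List M.Let) where
  toFun := M.trF n
  invFun := M.trF (-n)
  left_inv w := by rw [trF_add, neg_add_cancel, trF_zero]
  right_inv w := by rw [trF_add, add_neg_cancel, trF_zero]

lemma tr_add (n m : ℤ) : M.tr (n + m) = M.tr n * M.tr m :=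
  Equiv.ext fun w => (M.trF_add w n m).symm

lemma tr_zero : M.tr 0 = 1 := Equiv.ext M.trF_zero

lemma tr_neg (n : ℤ) : M.tr (-n) = (M.tr n)⁻¹ := Equiv.ext fun _ => rfl

lemma tr_zpow (k : ℤ) : M.tr k = M.tr 1 ^ k := by
  induction k using Int.induction_on with
  | zero => simp [tr_zero]
  | succ i ih => rw [tr_add, ih, zpow_add_one]
  | pred i ih => rw [sub_eq_add_neg, tr_add, ih, tr_neg, ← zpow_sub_one, sub_eq_add_neg]

lemma lampF_trF (w : List M.Let) : ∀ (σ : Option St) (α : F3 × F3) (j n : ℤ),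
    M.lampF σ α j (M.trF n w) = M.trF n (M.lampF σ α (j + n) w) := by
  induction w with
  | nil => intros; rfl
  | cons a w ih =>
    intro σ α j n
    have h := M.addc_val a.1.2 n
    have e : (a.1.2 + (j + n) : ℤ) = M.addc a.1.2 n + j + M.N * ((a.1.2 + n) / M.N) := by linarith
    have e1 : M.al σ a.1.1 (M.addc a.1.2 n + j) ↔ M.al σ a.1.1 (a.1.2 + (j + n)) :=
      ⟨M.al_of_dvd (by rw [e]; simp), M.al_of_dvd (by rw [e]; simp)⟩
    by_cases h1 : M.al σ a.1.1 (a.1.2 + (j + n))
    · rw [trF, lampF, lampF, if_pos (e1.2 h1), if_pos h1, trF, ih, e, np_add]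
    · rw [trF, lampF, lampF, if_neg (fun h => h1 (e1.1 h)), if_neg h1, trF]

lemma lamp_conj (σ : Option St) (α : F3 × F3) (j n : ℤ) :
    M.lamp σ α (j + n) = (M.tr n)⁻¹ * M.lamp σ α j * M.tr n := by
  rw [mul_assoc, eq_inv_mul_iff_mul_eq]
  exact Equiv.ext fun w => (M.lampF_trF w σ α j n).symm

end CM

end Pool.Agent.MP_e6aac2_al.H99
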